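import Pool.Agent.P.MP_5c5cb0_co.Orth

set_option autoImplicit false

namespace Pool.Agent.Results.MP_463344_co.DualOrthogonal

open Finset

theorem split {V T I : Type} (r : V ⊕ T → V ⊕ T → Prop) (q : V → V → Prop) (f : T → I)
    (h1 : ∀ u v, r (.inl u) (.inl v) → q u v) (h2 : ∀ s v, ¬ r (.inr s) (.inl v))
    (h3 : ∀ s t, r (.inr s) (.inr t) → f s = f t) (l : List (V ⊕ T)) (hl : l.IsChain r) :
    ∃ (a : List V) (b : List T), l = a.map .inl ++ b.map .inr ∧ a.IsChain q ∧
      ∀ s ∈ b, ∀ t ∈ b, f s = f t := by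
  induction l with
  | nil => exact ⟨[], [], rfl, .nil, by simp⟩
  | cons x l ih =>
    obtain ⟨a, b, rfl, ha, hb⟩ := ih hl.tail
    rcases x with u | s
    · refine ⟨u :: a, b, rfl, ?_, hb⟩
      rcases a with _ | ⟨v, a⟩
      · exact .singleton u
      · exact List.isChain_cons_cons.mpr ⟨h1 u v (List.isChain_cons_cons.mp hl).1, ha⟩
    · rcases a with _ | ⟨v, a⟩
      · refine ⟨[], s :: b, rfl, .nil, ?_⟩
        rcases b with _ | ⟨t, b⟩
        · simp
        · have e := h3 s t (List.isChain_cons_cons.mp hl).1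
          have k : ∀ x ∈ s :: t :: b, f x = f t := fun x hx => by
            rcases List.mem_cons.mp hx with rfl | hx
            exacts [e, hb x hx t List.mem_cons_self]
          exact fun x hx y hy => (k x hx).trans (k y hy).symm
      · exact absurd (List.isChain_cons_cons.mp hl).1 (h2 s v)

theorem cover {V : Type} [Fintype V] (q : V → V → Prop) (p : ℕ) :
    ∃ (B : Fin p → List V) (S : Set V) (k : ℕ) (col : V → Fin k),
      (∀ i, (B i).Nodup ∧ (B i).IsChain q) ∧ (∀ i j v, v ∈ B i → v ∈ B j → i = j) ∧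
      (∀ v ∉ S, ∃ i, v ∈ B i) ∧ (∀ u ∈ S, ∀ v ∈ S, u ≠ v → q u v → col u ≠ col v) ∧
      ∀ u ∈ S, ∀ i, ∃ v ∈ B i, v ∈ S ∧ col v = col u := by
  classical
  let k := Fintype.card V + 1
  let r : V ⊕ Fin p × Fin (k + 1) → V ⊕ Fin p × Fin (k + 1) → Prop := fun x y =>
    match x, y with
    | .inl u, .inl v => q u v
    | .inl _, .inr _ => True
    | .inr _, .inl _ => False
    | .inr s, .inr t => s.1 = t.1 ∧ s.2 < t.2
  obtain ⟨P, S, col, h1, h2, h3, h4⟩ := Pool.Agent.P.MP_5c5cb0_co.orth r k (Nat.succ_pos _)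
  have inj : ∀ s t : Fin p × Fin (k + 1), .inr s ∈ S → .inr t ∈ S → s.1 = t.1 →
      col (.inr s) = col (.inr t) → s = t := fun s t hs ht e e' => by
    by_contra hne
    have hne' : (Sum.inr s : V ⊕ _) ≠ .inr t := fun h => hne (Sum.inr.inj h)
    rcases lt_trichotomy s.2 t.2 with h | h | h
    · exact h3 _ hs _ ht hne' ⟨e, h⟩ e'
    · exact hne (Prod.ext e h)
    · exact h3 _ ht _ hs hne'.symm ⟨e.symm, h⟩ e'.symm
  have free : ∀ i : Fin p, ∃ t, .inr (i, t) ∉ S := fun i => by
    by_contra hc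
    push Not at hc
    have := Fintype.card_le_of_injective (fun t : Fin (k + 1) => col (.inr (i, t)))
      fun s t e => (Prod.ext_iff.mp (inj _ _ (hc s) (hc t) rfl e)).2
    simp at this
  choose t ht using free
  have long : ∀ x ∉ S, ∃ l ∈ P, x ∈ l ∧ ∀ i, ∃ v ∈ l, v ∈ S ∧ col v = i := fun x hx => by
    obtain ⟨l, ⟨hl, hxl⟩, -⟩ := h2 x
    refine ⟨l, hl, hxl, (h4 l hl).resolve_left ?_⟩
    rintro ⟨v, hv, rfl⟩
    exact hx (List.mem_singleton.mp hxl ▸ hv)
  choose L hL hLt hLc using fun i => long _ (ht i)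
  choose B C hBC hB hC using fun i => split r q Prod.fst (fun _ _ h => h) (fun _ _ h => h)
    (fun _ _ h => h.1) (L i) (h1 _ (hL i)).2.2
  have mB : ∀ i v, v ∈ B i ↔ .inl v ∈ L i := fun i v => by simp [hBC i]
  have mC : ∀ i s, .inr s ∈ L i → s.1 = i := fun i s hs =>
    hC i s (by simpa [hBC i] using hs) (i, t i) (by simpa [hBC i] using hLt i)
  obtain ⟨j, hj⟩ : ∃ j : Fin k, ∀ v, col (.inl v) ≠ j := by
    by_contra hc
    push Not at hc
    have := Fintype.card_le_of_surjective (fun v => col (.inl v)) hc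
    simp [k] at this
  refine ⟨B, {v | .inl v ∈ S}, k, fun v => col (.inl v), fun i => ⟨?_, hB i⟩,
    fun i i' v hv hv' => ?_, fun v hv => ?_,
    fun u hu v hv hne h => h3 _ hu _ hv (fun e => hne (Sum.inl.inj e)) h, fun u hu i => ?_⟩
  · have := (h1 _ (hL i)).2.1
    rw [hBC i] at this
    exact (List.nodup_append.mp this).1.of_map _
  · have e := (h2 (.inl v)).unique ⟨hL i, (mB i v).mp hv⟩ ⟨hL i', (mB i' v).mp hv'⟩
    exact mC i' (i, t i) (e ▸ hLt i)
  · obtain ⟨l, hl, hvl, hc⟩ := long _ hv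
    obtain ⟨x | s, hx, hS, e⟩ := hc j
    · exact absurd e (hj x)
    · obtain ⟨y | s', hy, hS', e'⟩ := hLc s.1 j
      · exact absurd e' (hj y)
      · obtain rfl := inj s' s hS' hS (mC _ _ hy) (e'.trans e.symm)
        exact ⟨_, (mB _ v).mpr ((h2 _).unique ⟨hl, hx⟩ ⟨hL _, hy⟩ ▸ hvl)⟩
  · obtain ⟨x | s, hx, hS, e⟩ := hLc i (col (.inl u))
    · exact ⟨x, (mB i x).mpr hx, hS, e⟩
    · exact absurd e.symm (h3 _ hu _ hS Sum.inl_ne_inr trivial)

theorem result (V : Type) [Fintype V] (D : Digraph V) (p : ℕ) :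
    ∃ (B : Fin p → List V) (m : ℕ) (c : (SimpleGraph.fromRel D.Adj).Coloring (Fin m)),
      (∀ i, (B i).Nodup ∧ (B i).IsChain D.Adj) ∧ (∀ i j, i ≠ j → (B i).Disjoint (B j)) ∧
      (∀ a, {i | ∃ v ∈ B i, c v = a}.ncard = min p (c.colorClass a).ncard) ∧
      ∑ a, min p (c.colorClass a).ncard ≤ ∑ i, (B i).length := by
  classical
  obtain ⟨B, S, k, col, h1, h2, h3, h4, h5⟩ := cover D.Adj p
  let e := Fintype.equivFin (Fin k ⊕ V)
  let g : V → Fin k ⊕ V := fun v => if v ∈ S then .inl (col v) else .inr v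
  have hg : ∀ u v, g u = g v → u = v ∨ u ∈ S ∧ v ∈ S ∧ col u = col v := fun u v h => by
    by_cases hu : u ∈ S <;> by_cases hv : v ∈ S <;> simp_all [g]
  let c : (SimpleGraph.fromRel D.Adj).Coloring (Fin _) :=
    SimpleGraph.Coloring.mk (fun v => e (g v)) fun {u v} h h' => by
      obtain ⟨hne, h⟩ := (SimpleGraph.fromRel_adj _ _ _).1 h
      obtain ⟨hu, hv, h'⟩ := (hg u v (e.injective h')).resolve_left hne
      exact h.elim (fun h => h4 u hu v hv hne h h') fun h => h4 v hv u hu hne.symm h h'.symm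
  have hc : ∀ v, c v = e (g v) := fun _ => rfl
  have H : ∀ a, {i | ∃ v ∈ B i, c v = a}.ncard = min p (c.colorClass a).ncard := fun a => by
    rcases (c.colorClass a).eq_empty_or_nonempty with h | ⟨u, rfl⟩
    · rw [h, Set.ncard_empty, Nat.min_zero, Set.ncard_eq_zero, Set.eq_empty_iff_forall_notMem]
      rintro i ⟨v, -, hv⟩
      exact (Set.eq_empty_iff_forall_notMem.mp h) v hv
    · by_cases hu : u ∈ S
      · choose f hf hfS hfc using h5 u hu
        have hf' : ∀ i, c (f i) = c u := fun i => by simp [hc, g, hu, hfS i, hfc i]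
        have : p ≤ (c.colorClass (c u)).ncard := by
          have := Set.ncard_le_ncard_of_injOn (s := Set.univ) (t := c.colorClass (c u)) f
            (fun i _ => hf' i) fun i _ j _ h => h2 i j _ (hf i) (h ▸ hf j)
          simpa [Set.ncard_univ] using this
        rw [min_eq_left this, Set.eq_univ_of_forall (s := {i | ∃ v ∈ B i, c v = c u})
          fun i => ⟨f i, hf i, hf' i⟩, Set.ncard_univ, Nat.card_fin]
      · obtain ⟨i, hi⟩ := h3 u hu
        have k1 : ∀ v, c v = c u → v = u := fun v h =>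
          (hg v u (e.injective h)).resolve_right fun h => hu h.2.1
        have k2 : c.colorClass (c u) = {u} := Set.eq_singleton_iff_unique_mem.mpr ⟨rfl, k1⟩
        rw [k2, Set.ncard_singleton, min_eq_right i.pos, Set.ncard_eq_one]
        refine ⟨i, Set.eq_singleton_iff_unique_mem.mpr ⟨⟨u, hi, rfl⟩, ?_⟩⟩
        rintro j ⟨v, hv, h⟩
        exact h2 j i u (k1 v h ▸ hv) hi
  refine ⟨B, _, c, h1, fun i j h v hv hv' => h (h2 i j v hv hv'), H, ?_⟩
  calc _ = ∑ a, ∑ i, if ∃ v ∈ B i, c v = a then 1 else 0 := sum_congr rfl fun a _ => by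
        rw [← H a, ← card_filter, ← Set.ncard_coe_finset]
        simp
    _ ≤ _ := by
      rw [sum_comm]
      refine sum_le_sum fun i _ => ?_
      rw [← card_filter]
      refine le_trans (card_le_card (t := (B i).toFinset.image c) fun a ha => ?_)
        (card_image_le.trans (List.toFinset_card_le _))
      simpa using ha

end Pool.Agent.Results.MP_463344_co.DualOrthogonal
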