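import Pool.Agent.P.MP_5c5cb0_co.Orth

set_option autoImplicit false

namespace Pool.Agent.Results.MP_463344_co.Orthogonal

/-- A directed path of `D`, as the nonempty list of its distinct vertices in order. -/
def IsPath {V : Type} (D : Digraph V) (l : List V) : Prop :=
  l ≠ [] ∧ l.Nodup ∧ l.IsChain D.Adj

/-- A path partition: a finite set of directed paths such that every vertex lies on exactly one. -/
def IsPathPartition {V : Type} (D : Digraph V) (P : Finset (List V)) : Prop :=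
  (∀ l ∈ P, IsPath D l) ∧ ∀ v : V, ∃! l, l ∈ P ∧ v ∈ l

theorem sum_le {V : Type} [Fintype V] {k : ℕ} (P : Finset (List V)) (S : Set V)
    (c : S → Fin k) (h : ∀ v : V, ∃! l, l ∈ P ∧ v ∈ l)
    (H : ∀ l ∈ P, {i : Fin k | ∃ v : S, v.1 ∈ l ∧ c v = i}.ncard = min k l.length) :
    ∑ l ∈ P, min k l.length ≤ S.ncard := by
  classical
  rw [← Nat.card_coe_set_eq, Nat.card_eq_fintype_card, ← Finset.card_univ,
    Finset.card_eq_sum_card_fiberwise (f := fun v : S => (h v.1).choose) (t := P)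
      fun v _ => (h v.1).choose_spec.1.1]
  refine Finset.sum_le_sum fun l hl => ?_
  rw [← H l hl, ← Set.ncard_coe_finset]
  refine le_trans (Set.ncard_le_ncard ?_) (Set.ncard_image_le (f := c))
  rintro _ ⟨v, hv, rfl⟩
  exact ⟨v, by simpa using ((h v.1).choose_spec.2 l ⟨hl, hv⟩).symm, rfl⟩

theorem orth (V : Type) [Fintype V] (D : Digraph V) (k : ℕ) (hk : 1 ≤ k) :
    ∃ (P : Finset (List V)) (S : Set V)
      (c : ((SimpleGraph.fromRel D.Adj).induce S).Coloring (Fin k)),
      IsPathPartition D P ∧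
        ∀ l ∈ P, {i : Fin k | ∃ v : S, v.1 ∈ l ∧ c v = i}.ncard = min k l.length := by
  classical
  obtain ⟨P, S, col, h1, h2, h3, h4⟩ := Pool.Agent.P.MP_5c5cb0_co.orth D.Adj k hk
  refine ⟨P, S, SimpleGraph.Coloring.mk (fun x => col x.1) ?_, ⟨h1, h2⟩, fun l hl => ?_⟩
  · rintro ⟨u, hu⟩ ⟨v, hv⟩ hadj
    have hadj' : (SimpleGraph.fromRel D.Adj).Adj u v := hadj
    obtain ⟨hne, h | h⟩ := (SimpleGraph.fromRel_adj _ _ _).1 hadj'
    · exact h3 u hu v hv hne h
    · exact (h3 v hv u hu hne.symm h).symm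
  · rcases h4 l hl with ⟨v, hv, rfl⟩ | h
    · rw [List.length_singleton, min_eq_right hk, Set.ncard_eq_one]
      refine ⟨col v, Set.eq_singleton_iff_unique_mem.mpr
        ⟨⟨⟨v, hv⟩, List.mem_singleton_self v, rfl⟩, ?_⟩⟩
      rintro _ ⟨⟨u, hu⟩, e, rfl⟩
      exact congrArg col (List.mem_singleton.mp e)
    · have e : k ≤ l.length := by
        choose f hf using h
        simpa using (Finset.card_le_card_of_injOn (s := Finset.univ) (t := l.toFinset) f
          (fun i _ => List.mem_toFinset.mpr (hf i).1)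
          fun i _ j _ e => by rw [← (hf i).2.2, e, (hf j).2.2]).trans (List.toFinset_card_le l)
      refine (congrArg Set.ncard (Set.eq_univ_of_forall fun i => ?_)).trans
        (by rw [min_eq_left e, Set.ncard_univ, Nat.card_fin])
      obtain ⟨v, h5, h6, h7⟩ := h i
      exact ⟨⟨v, h6⟩, h5, h7⟩

theorem result (V : Type) [Fintype V] (D : Digraph V) (k : ℕ) (hk : 1 ≤ k) :
    ∃ (P : Finset (List V)) (S : Set V)
      (c : ((SimpleGraph.fromRel D.Adj).induce S).Coloring (Fin k)),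
      IsPathPartition D P ∧
        (∀ l ∈ P, {i : Fin k | ∃ v : S, v.1 ∈ l ∧ c v = i}.ncard = min k l.length) ∧
        ∑ l ∈ P, min k l.length ≤ S.ncard := by
  obtain ⟨P, S, c, h1, h2⟩ := orth V D k hk
  exact ⟨P, S, c, h1, h2, sum_le P S c h1.2 h2⟩

end Pool.Agent.Results.MP_463344_co.Orthogonal
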